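import Pool.Agent.Lib.H65C.Z2

/-!
# The forcing theorem for higher order arithmetic in class forcings all of whose extensions satisfy ZFC

The definitions used in the statement are in `Lib/H65C/Defs.lean` (`Fm`, `Sat`, `Sat0`, `ZFCModel`, `GBModel`, `ClassForcing`,
`IsName`, `val` with its characterisation `mem_val`, `Generic`, `MG`, `Typ`, `tup`, `asg`, `Forces`) and in
`Lib/H65C/Z2.lean` (`TypNames`). All sets are elements of `ZFSet.{0}`, classes are `Set ZFSet.{0}`.
-/

open Pool.Agent.H65C

namespace Pool.Agent.Results.MP_a6cc1b_lc.HigherOrderArithmetic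

/-- `(M, C)` is a model of GB with `C` countable (so `M` is countable), `M` a transitive model of ZFC, `(P, L)` a class forcing
in `C`, and all generic extensions `M[G]` are models of ZFC. Then the forcing theorem holds for all formulas in the structures
`(P^(j+1)(ω)^M[G], ∈)`: definability and truth lemma, for all tuples of names that are forced to be elements of
`P^(j+1)(ω)`. -/
theorem result {M : Set ZFSet.{0}} {C : Set (Set ZFSet.{0})} {P L : Set ZFSet.{0}} (hB : GBModel M C)
    (hC : C.Countable) (hF : ClassForcing C P L) (hZ : ∀ G, Generic C P L G → ZFCModel (MG M P G))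
    (j : ℕ) (φ : Fm) (k : ℕ) :
    -- definability
    (∃ X ∈ C, ∀ p ∈ P, ∀ l : List ZFSet.{0}, l.length = k → TypNames M C P L (j + 1) l p →
      (tup (p :: l) ∈ X ↔ Forces M C P L (j + 1) φ l p)) ∧
    -- truth lemma
    ∀ G, Generic C P L G → ∀ p ∈ G, ∀ l : List ZFSet.{0}, TypNames M C P L (j + 1) l p →
      (Sat0 (Typ (MG M P G) (j + 1)) φ (asg G l) ↔
        ∃ q ∈ G, ZFSet.pair q p ∈ L ∧ Forces M C P L (j + 1) φ l q) :=
  Z2_main hB hC hF hZ j φ k

end Pool.Agent.Results.MP_a6cc1b_lc.HigherOrderArithmetic
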