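import Pool.Agent.Lib.H65C.I21

/-!
# The forcing theorem for ZFC-preserving class forcings with readable extensions

The definitions used in the statement are in `Lib/H65C/Defs.lean` (`Fm`, `Sat`, `Sat0`, `ZFCModel`, `GBModel`, `ClassForcing`,
`IsName`, `val` with its characterisation `mem_val`, `Generic`, `MG`, `Typ`, `tup`, `asg`) and in `Lib/H65C/Defs3.lean`
(`Readable`, `ForcesA`, `ForcingTheorem`). All sets are elements of `ZFSet.{0}`, classes are `Set ZFSet.{0}`.
-/

open Pool.Agent.H65C

namespace Pool.Agent.Results.MP_a6cc1b_lc.ReadableExtensions

/-- `(M, C)` is a model of GB with `C` countable (so `M` is countable), `M` a transitive model of ZFC, `(P, L)` a class forcing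
in `C`, and all generic extensions `M[G]` are models of ZFC. If for some `j` all generic extensions are readable (every set of
elements of `M` in `M[G]` is read off, by a set in `M`, from `G` and a subset of `P^j(ω)^M` in `M[G]`), then `P` satisfies the
forcing theorem. -/
theorem result {M : Set ZFSet.{0}} {C : Set (Set ZFSet.{0})} {P L : Set ZFSet.{0}} (hB : GBModel M C)
    (hC : C.Countable) (hF : ClassForcing C P L) (hZ : ∀ G, Generic C P L G → ZFCModel (MG M P G)) (j : ℕ)
    (hR : ∀ G, Generic C P L G → Readable M P j G) : ForcingTheorem M C P L :=
  I21_main hB hC hF hZ hR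

end Pool.Agent.Results.MP_a6cc1b_lc.ReadableExtensions
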