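import Pool.Agent.Lib.H65C.H22

/-!
# The forcing theorem for small names in class forcings all of whose extensions satisfy ZFC

The definitions used in the statement are in `Lib/H65C/Defs.lean` (`Fm`, `Sat`, `Sat0`, `ZFCModel`, `GBModel`, `ClassForcing`,
`IsName`, `val` with its characterisation `mem_val`, `Generic`, `MG`, `Typ`, `tup`, `asg`) and in `Lib/H65C/Defs2.lean`
(`SmallSet`, `SmallName`, `MGs`, `ForcesS`). All sets are elements of `ZFSet.{0}`, classes are `Set ZFSet.{0}`.
-/

open Pool.Agent.H65C

namespace Pool.Agent.Results.MP_a6cc1b_lc.SmallNames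

/-- `(M, C)` is a model of GB with `C` countable (so `M` is countable), `M` a transitive model of ZFC, `(P, L)` a class forcing
in `C`, and all generic extensions `M[G]` are models of ZFC. Then for every `j` the forcing theorem holds for all formulas in the
structure `(M_j[G], ∈)` of all values of names that are hereditarily of size at most `ℶ_j` in `M`. -/
theorem result {M : Set ZFSet.{0}} {C : Set (Set ZFSet.{0})} {P L : Set ZFSet.{0}} (hB : GBModel M C)
    (hC : C.Countable) (hF : ClassForcing C P L) (hZ : ∀ G, Generic C P L G → ZFCModel (MG M P G)) (j : ℕ) (φ : Fm) :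
    -- definability
    (∀ k : ℕ, {z | ∃ p ∈ P, ∃ l : List ZFSet.{0}, l.length = k ∧ (∀ σ ∈ l, SmallName M P j σ) ∧
      ForcesS M C P L j φ l p ∧ z = tup (p :: l)} ∈ C) ∧
    -- truth lemma
    ∀ l : List ZFSet.{0}, (∀ σ ∈ l, SmallName M P j σ) →
      ∀ G, Generic C P L G → (Sat0 (MGs M P j G) φ (asg G l) ↔ ∃ p ∈ G, ForcesS M C P L j φ l p) :=
  H22_main hB hC hF hZ j φ

end Pool.Agent.Results.MP_a6cc1b_lc.SmallNames
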